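import Pool.Agent.Run7.h245.MO.Iface
import Pool.Agent.Run7.h245.SR.WALK

/-!
# Project MO (helper245), piece MOM: the moments
-/

set_option autoImplicit false
set_option linter.all false

open scoped Classical

namespace Pool.Agent.Run7.h216.MO

open Pool.Agent.Run7.h245.MO
open Pool.Agent.Run7.h245.SR (Sj)
open Pool.Agent.Run7.h245.SR.WALK

/-- The falling product. -/
noncomputable def Ip (r : ℕ) (v : ℝ) : ℝ := ∏ i ∈ Finset.range r, (v - 2 ^ i)

theorem Ip_zero (v : ℝ) : Ip 0 v = 1 := by simp [Ip]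

theorem Ip_succ (r : ℕ) (v : ℝ) : Ip (r + 1) v = Ip r v * (v - 2 ^ r) := by
  unfold Ip
  rw [Finset.prod_range_succ]

theorem Ip_double (r : ℕ) (v : ℝ) : Ip (r + 1) (2 * v) = 2 ^ r * (2 * v - 1) * Ip r v := by
  induction r with
  | zero => simp [Ip]
  | succ n ih =>
    rw [Ip_succ, ih, Ip_succ]
    ring

theorem Ip_half (r : ℕ) (v : ℝ) : (v - 1) * Ip r (v / 2) * 2 ^ r = Ip r v * (v - 2 ^ r) := by
  induction r with
  | zero => simp [Ip]
  | succ n ih =>
    rw [Ip_succ, Ip_succ]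
    have h : (v - 1) * (Ip n (v / 2) * (v / 2 - 2 ^ n)) * 2 ^ (n + 1) =
        ((v - 1) * Ip n (v / 2) * 2 ^ n) * (v - 2 ^ (n + 1)) := by ring
    rw [h, ih]

theorem Ip_id (r : ℕ) (v : ℝ) (hv : v ≠ 0) :
    Ip (r + 1) (v / 2) + (1 / v) * (Ip (r + 1) (2 * v) - Ip (r + 1) (v / 2)) =
      (1 / 2) ^ (r + 1) * Ip (r + 1) v + (2 ^ (r + 1) - 1) * Ip r v := by
  have h1 := Ip_half (r + 1) v
  have h2 := Ip_double r v
  have h3 := Ip_succ r v
  have hp : (2 : ℝ) ^ (r + 1) ≠ 0 := by positivity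
  have h4 : (1 / 2 : ℝ) ^ (r + 1) * 2 ^ (r + 1) = 1 := by
    rw [← mul_pow]; norm_num
  have key : v * 2 ^ (r + 1) * (Ip (r + 1) (v / 2) + (1 / v) * (Ip (r + 1) (2 * v) - Ip (r + 1) (v / 2))) =
      v * 2 ^ (r + 1) * ((1 / 2) ^ (r + 1) * Ip (r + 1) v + (2 ^ (r + 1) - 1) * Ip r v) := by
    have e1 : v * 2 ^ (r + 1) * (Ip (r + 1) (v / 2) + (1 / v) * (Ip (r + 1) (2 * v) - Ip (r + 1) (v / 2)))
        = (v - 1) * Ip (r + 1) (v / 2) * 2 ^ (r + 1) + 2 ^ (r + 1) * Ip (r + 1) (2 * v) := by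
      field_simp
      ring
    have e2 : v * 2 ^ (r + 1) * ((1 / 2) ^ (r + 1) * Ip (r + 1) v + (2 ^ (r + 1) - 1) * Ip r v)
        = v * ((1 / 2) ^ (r + 1) * 2 ^ (r + 1)) * Ip (r + 1) v +
          v * 2 ^ (r + 1) * ((2 ^ (r + 1) - 1) * Ip r v) := by ring
    rw [e1, e2, h4, h1, h2, h3]
    ring
  exact mul_left_cancel₀ (mul_ne_zero hv hp) key

theorem Ip_eq_zero (r d : ℕ) (h : d < r) : Ip r (2 ^ d) = 0 := by
  unfold Ip
  exact Finset.prod_eq_zero (Finset.mem_range.2 h) (sub_self _)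

theorem Ip_nonneg (r d : ℕ) : 0 ≤ Ip r (2 ^ d) := by
  rcases lt_or_ge d r with h | h
  · rw [Ip_eq_zero r d h]
  · unfold Ip
    refine Finset.prod_nonneg fun i hi => ?_
    have hi' := Finset.mem_range.1 hi
    have : (2 : ℝ) ^ i ≤ 2 ^ d := pow_le_pow_right₀ (by norm_num) (by omega)
    linarith

theorem Ip_mono (r d e : ℕ) (h : d ≤ e) : Ip r (2 ^ d) ≤ Ip r (2 ^ e) := by
  rcases lt_or_ge d r with h' | h'
  · rw [Ip_eq_zero r d h']
    exact Ip_nonneg r e
  · unfold Ip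
    refine Finset.prod_le_prod (fun i hi => ?_) (fun i hi => ?_)
    · have hi' := Finset.mem_range.1 hi
      have : (2 : ℝ) ^ i ≤ 2 ^ d := pow_le_pow_right₀ (by norm_num) (by omega)
      linarith
    · have : (2 : ℝ) ^ d ≤ 2 ^ e := pow_le_pow_right₀ (by norm_num) h
      linarith

theorem Ip_le (r d : ℕ) : Ip r (2 ^ d) ≤ (2 ^ d) ^ r := by
  rcases lt_or_ge d r with h' | h'
  · rw [Ip_eq_zero r d h']
    positivity
  · unfold Ip
    refine (Finset.prod_le_prod (g := fun _ => (2 : ℝ) ^ d) (fun i hi => ?_) (fun i hi => ?_)).trans ?_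
    · have hi' := Finset.mem_range.1 hi
      have : (2 : ℝ) ^ i ≤ 2 ^ d := pow_le_pow_right₀ (by norm_num) (by omega)
      linarith
    · have : (0 : ℝ) < 2 ^ i := by positivity
      linarith
    · simp

/-- The constants. -/
noncomputable def CC (n₀ : ℕ) : ℕ → ℝ
  | 0 => 1
  | r + 1 => 2 ^ (n₀ * (r + 1)) + 4 * (2 ^ (r + 1) * CC n₀ r + 1)

theorem CC_pos (n₀ r : ℕ) : 0 < CC n₀ r := by
  induction r with
  | zero => simp [CC]
  | succ n ih =>
    rw [CC]
    positivity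

theorem CC_mono (n₀ : ℕ) : Monotone (CC n₀) := by
  refine monotone_nat_of_le_succ fun r => ?_
  have h := CC_pos n₀ r
  rw [CC]
  have h1 : (0 : ℝ) < 2 ^ (n₀ * (r + 1)) := by positivity
  have h2 : (1 : ℝ) ≤ 2 ^ (r + 1) := one_le_pow₀ (by norm_num)
  nlinarith

theorem rec_aux (R n₀ k : ℕ) (κ : ℝ) (hκ : 0 ≤ κ) (a : ℕ → ℕ → ℝ)
    (h0 : ∀ n ≤ k, a 0 n ≤ 1) (h1 : ∀ r ≤ R, a r 0 ≤ 2 ^ (n₀ * r))
    (h2 : ∀ r < R, ∀ n < k, a (r + 1) (n + 1) ≤
      (1 / 2) ^ (r + 1) * a (r + 1) n + (2 ^ (r + 1) - 1) * a r n + κ) :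
    ∀ r ≤ R, ∀ n ≤ k, a r n ≤ 2 ^ (r * (r + 1) / 2) + CC n₀ r * (3 / 4) ^ n + CC n₀ r * κ := by
  intro r
  induction r with
  | zero =>
    intro _ n hn
    have := h0 n hn
    have h3 := CC_pos n₀ 0
    have h4 : 0 ≤ CC n₀ 0 * (3 / 4 : ℝ) ^ n := by positivity
    have h5 : 0 ≤ CC n₀ 0 * κ := by positivity
    simp only [Nat.zero_mul, Nat.zero_div, pow_zero]
    linarith
  | succ r ihr =>
    intro hr n
    have ihr' := ihr (by omega)
    have hC := CC_pos n₀ r
    have hC' := CC_pos n₀ (r + 1)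
    induction n with
    | zero =>
      intro _
      have h3 := h1 (r + 1) hr
      have h4 : (2 : ℝ) ^ (n₀ * (r + 1)) ≤ CC n₀ (r + 1) := by
        rw [CC]
        have : (0 : ℝ) ≤ 4 * (2 ^ (r + 1) * CC n₀ r + 1) := by positivity
        linarith
      have h5 : 0 ≤ CC n₀ (r + 1) * κ := by positivity
      have h6 : (0 : ℝ) < 2 ^ ((r + 1) * (r + 1 + 1) / 2) := by positivity
      rw [pow_zero, mul_one]
      linarith
    | succ n ihn =>
      intro hn
      have e1 := ihn (by omega)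
      have e2 := ihr' n (by omega)
      have e3 := h2 r (by omega) n (by omega)
      have em : (2 : ℝ) ^ ((r + 1) * (r + 1 + 1) / 2) = 2 ^ (r + 1) * 2 ^ (r * (r + 1) / 2) := by
        have : (r + 1) * (r + 1 + 1) = r * (r + 1) + 2 * (r + 1) := by ring
        rw [this, Nat.add_mul_div_left _ _ (by norm_num), pow_add]
        ring
      have eC : CC n₀ (r + 1) = 2 ^ (n₀ * (r + 1)) + 4 * (2 ^ (r + 1) * CC n₀ r + 1) := by rw [CC]
      have hP : (0 : ℝ) < 2 ^ (n₀ * (r + 1)) := by positivity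
      set s : ℝ := 2 ^ (r + 1) with hs
      set h : ℝ := (1 / 2) ^ (r + 1) with hh
      have hhs : h * s = 1 := by
        rw [hs, hh, ← mul_pow]; norm_num
      have hs1 : 1 ≤ s := one_le_pow₀ (by norm_num)
      have hh0 : 0 < h := by positivity
      have hh2 : h ≤ 1 / 2 := by
        rw [hh, pow_succ]
        have : (1 / 2 : ℝ) ^ r ≤ 1 := pow_le_one₀ (by norm_num) (by norm_num)
        linarith
      set m : ℝ := 2 ^ (r * (r + 1) / 2) with hm
      set q : ℝ := (3 / 4) ^ n with hq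
      have hq0 : 0 < q := by positivity
      set C := CC n₀ r with hCd
      set C' := CC n₀ (r + 1) with hCd'
      rw [em] at e1 ⊢
      rw [pow_succ, ← hq]
      have f1 : h * C' ≤ (1 / 2) * C' := mul_le_mul_of_nonneg_right hh2 hC'.le
      have f2 : h * C' + (s - 1) * C ≤ 3 / 4 * C' - 1 := by
        have : (s - 1) * C ≤ s * C := by nlinarith
        linarith
      have g1 : h * a (r + 1) n ≤ h * (s * m + C' * q + C' * κ) := mul_le_mul_of_nonneg_left e1 hh0.le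
      have g2 : (s - 1) * a r n ≤ (s - 1) * (m + C * q + C * κ) :=
        mul_le_mul_of_nonneg_left e2 (by linarith)
      have g3 : (h * C' + (s - 1) * C) * q ≤ (3 / 4 * C' - 1) * q := mul_le_mul_of_nonneg_right f2 hq0.le
      have g4 : (h * C' + (s - 1) * C) * κ ≤ (3 / 4 * C' - 1) * κ := mul_le_mul_of_nonneg_right f2 hκ
      have g5 : 0 ≤ C' * κ := by positivity
      have g6 : h * (s * m + C' * q + C' * κ) + (s - 1) * (m + C * q + C * κ) + κ =
          (h * s) * m + (s - 1) * m + (h * C' + (s - 1) * C) * q + (h * C' + (s - 1) * C) * κ + κ := by ring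
      rw [hhs] at g6
      nlinarith

theorem rec_main (R n₀ : ℕ) (δ : ℝ) (hδ : 0 < δ) : ∃ (k : ℕ) (ε : ℝ), 0 < ε ∧
    ∀ a : ℕ → ℕ → ℝ, (∀ n ≤ k, a 0 n ≤ 1) → (∀ r ≤ R, a r 0 ≤ 2 ^ (n₀ * r)) →
    (∀ r < R, ∀ n < k, a (r + 1) (n + 1) ≤
      (1 / 2) ^ (r + 1) * a (r + 1) n + (2 ^ (r + 1) - 1) * a r n + 2 * ε * 2 ^ ((n₀ + k + 1) * R)) →
    ∀ r ≤ R, a r k ≤ 2 ^ (r * (r + 1) / 2) + δ := by
  have hR := CC_pos n₀ R
  obtain ⟨k, hk⟩ := exists_pow_lt_of_lt_one (show 0 < δ / 2 / CC n₀ R by positivity)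
    (show (3 / 4 : ℝ) < 1 by norm_num)
  refine ⟨k, δ / (4 * CC n₀ R * 2 ^ ((n₀ + k + 1) * R)), by positivity, ?_⟩
  intro a h0 h1 h2 r hr
  have hκ : 2 * (δ / (4 * CC n₀ R * 2 ^ ((n₀ + k + 1) * R))) * 2 ^ ((n₀ + k + 1) * R) =
      δ / (2 * CC n₀ R) := by
    field_simp
    ring
  rw [hκ] at h2
  have h3 := rec_aux R n₀ k (δ / (2 * CC n₀ R)) (by positivity) a h0 h1 h2 r hr k le_rfl
  have h4 : CC n₀ r ≤ CC n₀ R := CC_mono n₀ hr
  have h5 : CC n₀ r * (3 / 4) ^ k ≤ δ / 2 := by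
    rw [lt_div_iff₀ hR] at hk
    have : CC n₀ r * (3 / 4 : ℝ) ^ k ≤ CC n₀ R * (3 / 4) ^ k :=
      mul_le_mul_of_nonneg_right h4 (by positivity)
    linarith [mul_comm (CC n₀ R) ((3 / 4 : ℝ) ^ k)]
  have h6 : CC n₀ r * (δ / (2 * CC n₀ R)) ≤ δ / 2 := by
    have : CC n₀ r * (δ / (2 * CC n₀ R)) ≤ CC n₀ R * (δ / (2 * CC n₀ R)) :=
      mul_le_mul_of_nonneg_right h4 (by positivity)
    have e : CC n₀ R * (δ / (2 * CC n₀ R)) = δ / 2 := by
      field_simp
    linarith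
  linarith

section grp

variable {ι : Type} [Fintype ι] (Λ : AddSubgroup (ι → ZMod 2 × ZMod 2))

theorem step_half (hΛ : ∀ l ∈ Λ, ∑ i, (l i).1 * (l i).2 = 0) (J : Finset ι) (x : ι) (hx : x ∉ J)
    (l : ι → ZMod 2 × ZMod 2) (hl : l ∈ Sj Λ J) (hlx : (l x).2 ≠ 0) :
    Nat.card (Sj Λ (insert x J)) < Nat.card (Sj Λ J) := by
  have hle : Sj Λ (insert x J) ≤ Sj Λ J := by
    rintro l' ⟨h1, h2, h3⟩
    have hl' := hl
    obtain ⟨g1, g2, g3⟩ := hl
    have key : (l' x).1 = 0 := by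
      by_contra hne
      have h4 := hΛ (l + l') (Λ.add_mem g1 h1)
      rw [Finset.sum_eq_single x] at h4
      · have e1 : ((l + l') x).1 = (l' x).1 := by
          show (l x).1 + (l' x).1 = _
          rw [g2 x hx, zero_add]
        have e2 : ((l + l') x).2 = (l x).2 := by
          show (l x).2 + (l' x).2 = _
          rw [h3 x (Finset.mem_insert_self _ _), add_zero]
        rw [e1, e2] at h4
        have h5 : ∀ a b : ZMod 2, a ≠ 0 → b ≠ 0 → a * b ≠ 0 := by decide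
        exact h5 _ _ hne hlx h4
      · intro i _ hi
        by_cases hiJ : i ∈ J
        · have e2 : ((l + l') i).2 = 0 := by
            show (l i).2 + (l' i).2 = _
            rw [g3 i hiJ, h3 i (Finset.mem_insert_of_mem hiJ), add_zero]
          rw [e2, mul_zero]
        · have e1 : ((l + l') i).1 = 0 := by
            show (l i).1 + (l' i).1 = _
            rw [g2 i hiJ, h2 i (fun h => (Finset.mem_insert.1 h).elim hi hiJ), add_zero]
          rw [e1, zero_mul]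
      · intro h
        exact absurd (Finset.mem_univ x) h
    refine ⟨h1, fun i hi => ?_, fun i hi => h3 i (Finset.mem_insert_of_mem hi)⟩
    by_cases hix : i = x
    · rw [hix]; exact key
    · exact h2 i (fun h => (Finset.mem_insert.1 h).elim hix hi)
  refine lt_of_le_of_ne (Nat.card_le_card_of_injective (AddSubgroup.inclusion hle)
    (AddSubgroup.inclusion_injective hle)) fun he => ?_
  have heq : Sj Λ (insert x J) = Sj Λ J := AddSubgroup.eq_of_le_of_card_ge hle he.ge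
  rw [← heq] at hl
  exact hlx (hl.2.2 x (Finset.mem_insert_self _ _))

/-- The subgroup of the elements with vanishing second component at `x`. -/
theorem card_filter_ge (V : AddSubgroup (ι → ZMod 2 × ZMod 2)) (x : ι) :
    Nat.card V ≤ 2 * ((Finset.univ.filter fun l : ι → ZMod 2 × ZMod 2 => l ∈ V).filter
      fun l => (l x).2 = 0).card := by
  let B : AddSubgroup (ι → ZMod 2 × ZMod 2) := V ⊓ ((AddMonoidHom.snd (ZMod 2) (ZMod 2)).comp
    (Pi.evalAddMonoidHom (fun _ => ZMod 2 × ZMod 2) x)).ker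
  have h := card_le_two V B ((AddMonoidHom.snd (ZMod 2) (ZMod 2)).comp
    (Pi.evalAddMonoidHom (fun _ => ZMod 2 × ZMod 2) x)) (fun l hl h => ⟨hl, h⟩)
  have e : Nat.card B = ((Finset.univ.filter fun l : ι → ZMod 2 × ZMod 2 => l ∈ V).filter
      fun l => (l x).2 = 0).card := by
    rw [Finset.filter_filter, ← Fintype.card_subtype, Nat.card_eq_fintype_card]
    exact Fintype.card_congr (Equiv.subtypeEquivRight fun l => Iff.rfl)
  rwa [e] at h

theorem count (V : AddSubgroup (ι → ZMod 2 × ZMod 2)) (T : Finset ι) (ε : ℝ) (hε : 0 < ε)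
    (h : ∀ l ∈ V, l ≠ 0 → (((T.filter fun i => (l i).2 = 0).card : ℕ) : ℝ) ≤ (1 / 2 + ε) * T.card) :
    ((T.filter fun x => ∀ l ∈ V, (l x).2 = 0).card : ℝ) ≤
      T.card * (1 / (Nat.card V : ℝ) + 2 * ε) := by
  set Vf : Finset (ι → ZMod 2 × ZMod 2) := Finset.univ.filter fun l => l ∈ V with hVf
  have hc : Vf.card = Nat.card V := by
    rw [hVf, ← Fintype.card_subtype, Nat.card_eq_fintype_card]
  have hv : 0 < Nat.card V := Nat.card_pos
  set v : ℝ := (Nat.card V : ℝ) with hvd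
  have hv0 : 0 < v := by
    rw [hvd]
    exact_mod_cast hv
  set N0 := (T.filter fun x => ∀ l ∈ V, (l x).2 = 0).card with hN0
  have hdc : ∑ x ∈ T, (Vf.filter fun l => (l x).2 = 0).card =
      ∑ l ∈ Vf, (T.filter fun x => (l x).2 = 0).card := by
    simp only [Finset.card_filter]
    rw [Finset.sum_comm]
  have hlow : v * T.card + v * N0 ≤ 2 * ((∑ x ∈ T, (Vf.filter fun l => (l x).2 = 0).card : ℕ) : ℝ) := by
    have e1 : v * T.card + v * N0 = ∑ x ∈ T, (v + if ∀ l ∈ V, (l x).2 = 0 then v else 0) := by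
      rw [Finset.sum_add_distrib, ← Finset.sum_filter, Finset.sum_const, Finset.sum_const,
        nsmul_eq_mul, nsmul_eq_mul, ← hN0]
      ring
    rw [e1, Nat.cast_sum, Finset.mul_sum]
    refine Finset.sum_le_sum fun x hx => ?_
    split_ifs with hg
    · have : Vf.filter (fun l => (l x).2 = 0) = Vf := by
        rw [Finset.filter_eq_self]
        intro l hl
        exact hg l (Finset.mem_filter.1 hl).2
      rw [this, hc]
      linarith
    · have := card_filter_ge V x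
      rw [add_zero]
      have h2 : (Nat.card V : ℝ) ≤ ((2 * (Vf.filter fun l => (l x).2 = 0).card : ℕ) : ℝ) := by
        exact_mod_cast this
      push_cast at h2
      exact h2
  have hup : ((∑ l ∈ Vf, (T.filter fun x => (l x).2 = 0).card : ℕ) : ℝ) ≤
      T.card + (v - 1) * ((1 / 2 + ε) * T.card) := by
    have h0 : (0 : ι → ZMod 2 × ZMod 2) ∈ Vf := by
      rw [hVf, Finset.mem_filter]
      exact ⟨Finset.mem_univ _, V.zero_mem⟩
    rw [← Finset.add_sum_erase Vf _ h0]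
    push_cast
    refine add_le_add ?_ ?_
    · exact_mod_cast Finset.card_filter_le _ _
    · refine (Finset.sum_le_card_nsmul _ _ ((1 / 2 + ε) * T.card) ?_).trans ?_
      · intro l hl
        rw [Finset.mem_erase, hVf, Finset.mem_filter] at hl
        exact h l hl.2.2 hl.1
      · rw [nsmul_eq_mul, Finset.card_erase_of_mem h0, hc, Nat.cast_sub (by omega), Nat.cast_one]
  rw [hdc] at hlow
  have hT : (0 : ℝ) ≤ T.card := Nat.cast_nonneg _
  have hfin : v * N0 ≤ T.card * (1 + 2 * ε * v) := by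
    have : 0 ≤ ε * T.card := by positivity
    nlinarith
  have e2 : (T.card : ℝ) * (1 / v + 2 * ε) = (T.card * (1 + 2 * ε * v)) / v := by
    field_simp
  rw [e2, le_div_iff₀ hv0]
  linarith [mul_comm v (N0 : ℝ)]

theorem mean (hΛ : ∀ l ∈ Λ, ∑ i, (l i).1 * (l i).2 = 0) (J T : Finset ι) (hx : ∀ x ∈ T, x ∉ J)
    (ε : ℝ) (hε : 0 < ε)
    (h : ∀ l ∈ Sj Λ J, l ≠ 0 →
      (((T.filter fun i => (l i).2 = 0).card : ℕ) : ℝ) ≤ (1 / 2 + ε) * T.card) (r : ℕ) :
    ∑ x ∈ T, Ip (r + 1) (Nat.card (Sj Λ (insert x J))) ≤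
      T.card * ((1 / 2) ^ (r + 1) * Ip (r + 1) (Nat.card (Sj Λ J)) +
        (2 ^ (r + 1) - 1) * Ip r (Nat.card (Sj Λ J)) +
        2 * ε * (2 * (Nat.card (Sj Λ J) : ℝ)) ^ (r + 1)) := by
  have hcount := count (Sj Λ J) T ε hε h
  obtain ⟨d, hd⟩ := pow_two (Sj Λ J)
  have hdR : (Nat.card (Sj Λ J) : ℝ) = 2 ^ d := by
    rw [hd]; push_cast; rfl
  rw [hdR] at hcount ⊢
  have hv0 : (0 : ℝ) < 2 ^ d := by positivity
  have hid := Ip_id r ((2 : ℝ) ^ d) hv0.ne'
  have h2v : (2 : ℝ) * 2 ^ d = 2 ^ (d + 1) := by rw [pow_succ]; ring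
  have hup : ∀ x ∈ T, Ip (r + 1) (Nat.card (Sj Λ (insert x J))) ≤ Ip (r + 1) (2 * 2 ^ d) := by
    intro x hxT
    obtain ⟨e, he⟩ := pow_two (Sj Λ (insert x J))
    have h1 := step_down Λ J x
    rw [he, hd, ← pow_succ'] at h1
    have h2 : e ≤ d + 1 := (Nat.pow_le_pow_iff_right (by norm_num)).1 h1
    rw [h2v, he]
    push_cast
    exact Ip_mono _ _ _ h2
  have hle : Ip (r + 1) (2 * 2 ^ d) ≤ (2 * 2 ^ d) ^ (r + 1) := by
    rw [h2v]; exact Ip_le _ _
  have h2nn : 0 ≤ Ip (r + 1) (2 * (2 : ℝ) ^ d) := by rw [h2v]; exact Ip_nonneg _ _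
  have hT : (0 : ℝ) ≤ T.card := Nat.cast_nonneg _
  rcases Nat.eq_zero_or_pos d with hd0 | hd0
  · -- trivial group
    have h1 : ∑ x ∈ T, Ip (r + 1) (Nat.card (Sj Λ (insert x J))) ≤ T.card * Ip (r + 1) (2 * 2 ^ d) := by
      refine (Finset.sum_le_card_nsmul _ _ _ hup).trans ?_
      rw [nsmul_eq_mul]
    refine h1.trans ?_
    refine mul_le_mul_of_nonneg_left ?_ hT
    rw [← hid, hd0]
    have : (0 : ℝ) ≤ 2 * ε * (2 * 2 ^ 0) ^ (r + 1) := by positivity
    simp only [pow_zero, mul_one, div_one, one_mul]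
    simp only [pow_zero, mul_one] at this
    linarith
  · have hhalf : (2 : ℝ) ^ d / 2 = 2 ^ (d - 1) := by
      obtain ⟨e, rfl⟩ : ∃ e, d = e + 1 := ⟨d - 1, by omega⟩
      rw [Nat.add_sub_cancel, pow_succ]
      ring
    have hbad : ∀ x ∈ T, ¬ (∀ l ∈ Sj Λ J, (l x).2 = 0) →
        Ip (r + 1) (Nat.card (Sj Λ (insert x J))) ≤ Ip (r + 1) (2 ^ d / 2) := by
      intro x hxT hne
      push_neg at hne
      obtain ⟨l, hl, hlx⟩ := hne
      have h1 := step_half Λ hΛ J x (hx x hxT) l hl hlx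
      obtain ⟨e, he⟩ := pow_two (Sj Λ (insert x J))
      rw [he, hd] at h1
      have h2 : e < d := (Nat.pow_lt_pow_iff_right (by norm_num)).1 h1
      rw [hhalf, he]
      push_cast
      exact Ip_mono _ _ _ (by omega)
    set A := Ip (r + 1) (2 * (2 : ℝ) ^ d) with hA
    set B := Ip (r + 1) ((2 : ℝ) ^ d / 2) with hB
    have hBA : B ≤ A := by
      rw [hA, hB, h2v, hhalf]
      exact Ip_mono _ _ _ (by omega)
    have hB0 : 0 ≤ B := by
      rw [hB, hhalf]; exact Ip_nonneg _ _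
    set N0 := (T.filter fun x => ∀ l ∈ Sj Λ J, (l x).2 = 0).card with hN0
    have h1 : ∑ x ∈ T, Ip (r + 1) (Nat.card (Sj Λ (insert x J))) ≤ T.card * B + N0 * (A - B) := by
      have e1 : (T.card : ℝ) * B + N0 * (A - B) =
          ∑ x ∈ T, (B + if ∀ l ∈ Sj Λ J, (l x).2 = 0 then A - B else 0) := by
        rw [Finset.sum_add_distrib, ← Finset.sum_filter, Finset.sum_const, Finset.sum_const,
          nsmul_eq_mul, nsmul_eq_mul, ← hN0]
      rw [e1]
      refine Finset.sum_le_sum fun x hxT => ?_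
      split_ifs with hg
      · rw [add_sub_cancel]
        exact hup x hxT
      · rw [add_zero]
        exact hbad x hxT hg
    refine h1.trans ?_
    rw [← hid]
    have h3 : (N0 : ℝ) * (A - B) ≤ (T.card * (1 / 2 ^ d + 2 * ε)) * (A - B) :=
      mul_le_mul_of_nonneg_right hcount (by linarith)
    have h4 : (T.card : ℝ) * (2 * ε) * (A - B) ≤ T.card * (2 * ε) * (2 * 2 ^ d) ^ (r + 1) := by
      refine mul_le_mul_of_nonneg_left ?_ (by positivity)
      linarith
    nlinarith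

end grp

section jj

variable {ι : Type} (T : ℕ → Finset ι)

theorem mem_JJ (n : ℕ) : ∀ J ∈ JJ T n, ∀ i ∈ J, ∃ m, 1 ≤ m ∧ m ≤ n ∧ i ∈ T m := by
  induction n with
  | zero =>
    intro J hJ i hi
    simp only [JJ, Finset.mem_singleton] at hJ
    subst hJ
    simp at hi
  | succ n ih =>
    intro J hJ i hi
    simp only [JJ, Finset.mem_image, Finset.mem_product] at hJ
    obtain ⟨⟨J', x⟩, ⟨h1, h2⟩, rfl⟩ := hJ
    rcases Finset.mem_insert.1 hi with h | h
    · exact ⟨n + 1, by omega, le_rfl, h ▸ h2⟩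
    · obtain ⟨m, hm1, hm2, hm3⟩ := ih J' h1 i h
      exact ⟨m, hm1, by omega, hm3⟩

theorem notMem_JJ (k n : ℕ) (hn : n < k) (hd : ∀ i ≤ k, ∀ j ≤ k, i ≠ j → Disjoint (T i) (T j))
    (J : Finset ι) (hJ : J ∈ JJ T n) (x : ι) (hx : x ∈ T (n + 1)) : x ∉ J := by
  intro h
  obtain ⟨m, hm1, hm2, hm3⟩ := mem_JJ T n J hJ x h
  exact (Finset.disjoint_left.1 (hd m (by omega) (n + 1) (by omega) (by omega))) hm3 hx

theorem sum_JJ (k n : ℕ) (hn : n < k) (hd : ∀ i ≤ k, ∀ j ≤ k, i ≠ j → Disjoint (T i) (T j))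
    (F : Finset ι → ℝ) :
    ∑ J ∈ JJ T (n + 1), F J = ∑ J ∈ JJ T n, ∑ x ∈ T (n + 1), F (insert x J) := by
  rw [JJ, Finset.sum_image, Finset.sum_product]
  rintro ⟨J, x⟩ h1 ⟨J', x'⟩ h2 heq
  simp only [Finset.coe_product, Set.mem_prod, Finset.mem_coe] at h1 h2
  simp only at heq
  have a1 := notMem_JJ T k n hn hd J h1.1 x h1.2
  have a2 := notMem_JJ T k n hn hd J' h2.1 x' h2.2
  have a3 := notMem_JJ T k n hn hd J' h2.1 x h1.2
  have hxx : x = x' := by
    have : x ∈ insert x' J' := by rw [← heq]; exact Finset.mem_insert_self _ _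
    exact (Finset.mem_insert.1 this).resolve_right a3
  subst hxx
  have : J = J' := by
    rw [← Finset.erase_insert a1, ← Finset.erase_insert a2, heq]
  rw [this]

end jj

theorem mom : S_MOM := by
  intro R n₀ δ hδ
  obtain ⟨k, ε, hε, H⟩ := rec_main R n₀ δ hδ
  refine ⟨k, ε, hε, ?_⟩
  intro ι _ Λ T hΛ hd hne hT0 hinj hlev r hr
  have hpos : ∀ n, n ≤ k → (JJ T n).Nonempty := by
    intro n
    induction n with
    | zero => intro _; exact ⟨∅, by simp [JJ]⟩
    | succ n ih =>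
      intro hn
      have h1 := ih (by omega)
      have h2 := hne (n + 1) (by omega) hn
      rw [JJ]
      exact (h1.product h2).image _
  have hcR : ∀ n, n ≤ k → (0 : ℝ) < (JJ T n).card := fun n hn => by
    exact_mod_cast (hpos n hn).card_pos
  have hTR : ∀ n, n < k → (0 : ℝ) < (T (n + 1)).card := fun n hn => by
    exact_mod_cast (hne (n + 1) (by omega) hn).card_pos
  have hcm : ∀ n, n < k → ((JJ T (n + 1)).card : ℝ) = (JJ T n).card * (T (n + 1)).card := by
    intro n hn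
    have := sum_JJ T k n hn hd (fun _ => 1)
    simp only [Finset.sum_const, nsmul_eq_mul, mul_one] at this
    exact this
  -- the trivial bound
  have hS0 : Nat.card (Sj Λ (∅ : Finset ι)) ≤ 2 ^ n₀ := by
    have h1 : Nat.card (Sj Λ (∅ : Finset ι)) ≤ Nat.card (T 0 → ZMod 2) := by
      refine Nat.card_le_card_of_injective
        (fun l : Sj Λ (∅ : Finset ι) => fun i : T 0 => ((l : ι → ZMod 2 × ZMod 2) i).2) ?_
      intro l l' hll
      have h2 : (l : ι → ZMod 2 × ZMod 2) - l' = 0 := by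
        have hm := (Sj Λ (∅ : Finset ι)).sub_mem l.2 l'.2
        refine hinj _ hm.1 (fun i => hm.2.1 i (Finset.notMem_empty i)) fun i hi => ?_
        have := congrFun hll ⟨i, hi⟩
        simp only at this
        show ((l : ι → ZMod 2 × ZMod 2) i).2 - ((l' : ι → ZMod 2 × ZMod 2) i).2 = 0
        rw [this, sub_self]
      exact Subtype.ext (sub_eq_zero.1 h2)
    refine h1.trans ?_
    rw [Nat.card_eq_fintype_card, Fintype.card_fun, ZMod.card, Fintype.card_coe]
    exact Nat.pow_le_pow_right (by norm_num) hT0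
  have hbd : ∀ n, n ≤ k → ∀ J ∈ JJ T n, Nat.card (Sj Λ J) ≤ 2 ^ (n₀ + n) := by
    intro n
    induction n with
    | zero =>
      intro _ J hJ
      simp only [JJ, Finset.mem_singleton] at hJ
      rw [hJ]
      exact hS0
    | succ n ih =>
      intro hn J hJ
      simp only [JJ, Finset.mem_image, Finset.mem_product] at hJ
      obtain ⟨⟨J', x⟩, ⟨h1, h2⟩, rfl⟩ := hJ
      have h3 := ih (by omega) J' h1
      have h4 := step_down Λ J' x
      have h5 : 2 ^ (n₀ + (n + 1)) = 2 * 2 ^ (n₀ + n) := by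
        rw [← add_assoc, pow_succ]; ring
      rw [h5]
      exact h4.trans (Nat.mul_le_mul_left 2 h3)
  set a : ℕ → ℕ → ℝ := fun r n => (∑ J ∈ JJ T n, Ip r (Nat.card (Sj Λ J))) / (JJ T n).card with ha
  have key := H a ?_ ?_ ?_ r hr
  · have := (div_le_iff₀ (hcR k le_rfl)).1 key
    exact this
  · intro n hn
    rw [ha]
    simp only [Ip_zero, Finset.sum_const, nsmul_eq_mul, mul_one]
    rw [div_self (hcR n hn).ne']
  · intro r hr
    rw [ha]
    simp only [JJ, Finset.sum_singleton, Finset.card_singleton, Nat.cast_one, div_one]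
    obtain ⟨e, he⟩ := pow_two (Sj Λ (∅ : Finset ι))
    rw [he] at hS0 ⊢
    have h1 : e ≤ n₀ := (Nat.pow_le_pow_iff_right (by norm_num)).1 hS0
    push_cast
    refine (Ip_le r e).trans ?_
    rw [← pow_mul]
    exact pow_le_pow_right₀ (by norm_num) (Nat.mul_le_mul_right r h1)
  · intro r hr n hn
    have hc := hcR n hn.le
    have hT := hTR n hn
    show (∑ J ∈ JJ T (n + 1), Ip (r + 1) (Nat.card (Sj Λ J))) / (JJ T (n + 1)).card ≤
      (1 / 2) ^ (r + 1) * ((∑ J ∈ JJ T n, Ip (r + 1) (Nat.card (Sj Λ J))) / (JJ T n).card) +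
      (2 ^ (r + 1) - 1) * ((∑ J ∈ JJ T n, Ip r (Nat.card (Sj Λ J))) / (JJ T n).card) +
      2 * ε * 2 ^ ((n₀ + k + 1) * R)
    rw [div_le_iff₀ (hcR (n + 1) hn), hcm n hn, sum_JJ T k n hn hd]
    have h1 : ∀ J ∈ JJ T n, ∑ x ∈ T (n + 1), Ip (r + 1) (Nat.card (Sj Λ (insert x J))) ≤
        (T (n + 1)).card * ((1 / 2) ^ (r + 1) * Ip (r + 1) (Nat.card (Sj Λ J)) +
          (2 ^ (r + 1) - 1) * Ip r (Nat.card (Sj Λ J)) + 2 * ε * 2 ^ ((n₀ + k + 1) * R)) := by
      intro J hJ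
      refine (mean Λ hΛ J (T (n + 1)) (fun x hx => notMem_JJ T k n hn hd J hJ x hx) ε hε ?_ r).trans ?_
      · intro l hl hl0
        refine hlev (n + 1) (by omega) hn l hl.1 hl0 fun i hi => hl.2.1 i fun hiJ => ?_
        obtain ⟨m, hm1, hm2, hm3⟩ := mem_JJ T n J hJ i hiJ
        exact hi m (by omega) hm3
      · refine mul_le_mul_of_nonneg_left ?_ hT.le
        have h2 := hbd n hn.le J hJ
        obtain ⟨e, he⟩ := pow_two (Sj Λ J)
        rw [he] at h2
        have h3 : e ≤ n₀ + n := (Nat.pow_le_pow_iff_right (by norm_num)).1 h2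
        have h4 : (2 * (Nat.card (Sj Λ J) : ℝ)) ^ (r + 1) ≤ 2 ^ ((n₀ + k + 1) * R) := by
          rw [he]
          push_cast
          rw [← pow_succ', ← pow_mul]
          refine pow_le_pow_right₀ (by norm_num) ?_
          exact Nat.mul_le_mul (by omega) (by omega)
        have h5 : 2 * ε * (2 * (Nat.card (Sj Λ J) : ℝ)) ^ (r + 1) ≤ 2 * ε * 2 ^ ((n₀ + k + 1) * R) :=
          mul_le_mul_of_nonneg_left h4 (by positivity)
        linarith
    refine (Finset.sum_le_sum h1).trans (le_of_eq ?_)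
    rw [← Finset.mul_sum, Finset.sum_add_distrib, Finset.sum_add_distrib, ← Finset.mul_sum,
      ← Finset.mul_sum, Finset.sum_const, nsmul_eq_mul]
    field_simp

end Pool.Agent.Run7.h216.MO
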