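import Pool.Agent.Run7.h245.MO.Iface

/-!
# Project MO (helper245), piece WIN: primes `1 mod 8` in short intervals
-/

set_option autoImplicit false
set_option linter.all false

open ArithmeticFunction ArithmeticFunction.vonMangoldt
open scoped Classical

namespace Pool.Agent.Run7.h216.MO

open Pool.Agent.Run7.h245.MO

theorem win : S_WIN := by
  intro ρ hρ W m
  by_contra hcon
  set x : ℝ := 1 + ρ with hx
  have hx1 : 1 < x := by rw [hx]; linarith
  have hx0 : 0 < x := by linarith
  have hlx : 0 < Real.log x := Real.log_pos hx1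
  set g : ℕ → ℕ := fun n => ⌊Real.log n / Real.log x⌋₊ with hg
  -- bounds
  have hb : ∀ q : ℕ, 0 < q → x ^ (g q) ≤ (q : ℝ) ∧ (q : ℝ) < x ^ (g q + 1) := by
    intro q hq
    have hq0 : (0 : ℝ) < q := by exact_mod_cast hq
    have hq1 : (1 : ℝ) ≤ q := by exact_mod_cast hq
    have hlq : 0 ≤ Real.log q := Real.log_nonneg hq1
    have h1 : ((g q : ℕ) : ℝ) ≤ Real.log q / Real.log x := Nat.floor_le (div_nonneg hlq hlx.le)
    have h2 : Real.log q / Real.log x < ((g q : ℕ) : ℝ) + 1 := Nat.lt_floor_add_one _
    constructor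
    · rw [← Real.log_le_log_iff (pow_pos hx0 _) hq0, Real.log_pow]
      rwa [le_div_iff₀ hlx] at h1
    · rw [← Real.log_lt_log_iff hq0 (pow_pos hx0 _), Real.log_pow]
      rw [div_lt_iff₀ hlx] at h2
      push_cast
      exact h2
  have hfib : ∀ (k : ℕ) (S : Finset ℕ), (∀ q ∈ S, (q.Prime ∧ W < q ∧ q % 8 = 1) ∧ g q = k) →
      S.card < m := by
    intro k S hS
    by_contra hlt
    rw [not_lt] at hlt
    obtain ⟨T, hTS, hTc⟩ := Finset.exists_subset_card_eq hlt
    apply hcon
    refine ⟨T, hTc, fun q hq => (hS q (hTS hq)).1, fun q hq q' hq' => ?_⟩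
    have h1 := hS q (hTS hq)
    have h2 := hS q' (hTS hq')
    have h3 := (hb q h1.1.1.pos).2
    have h4 := (hb q' h2.1.1.pos).1
    rw [h1.2, pow_succ] at h3
    rw [h2.2] at h4
    have h5 : x ^ k * x ≤ (q' : ℝ) * x := mul_le_mul_of_nonneg_right h4 hx0.le
    linarith [mul_comm (q' : ℝ) x]
  -- the majorant
  have hmaj : Summable (fun k : ℕ => (m : ℝ) * (((k : ℝ) + 1) * Real.log x * (1 / x) ^ k)) := by
    apply Summable.mul_left
    have hr : ‖(1 / x : ℝ)‖ < 1 := by
      rw [Real.norm_of_nonneg (by positivity)]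
      rw [div_lt_one hx0]; exact hx1
    have h1 : Summable (fun k : ℕ => (k : ℝ) ^ 1 * (1 / x) ^ k) :=
      summable_pow_mul_geometric_of_norm_lt_one 1 hr
    have h2 : Summable (fun k : ℕ => (1 / x : ℝ) ^ k) := summable_geometric_of_norm_lt_one hr
    have h3 := (h1.add h2).mul_left (Real.log x)
    refine h3.congr fun k => ?_
    ring
  have hsum : Summable (fun n : ℕ => if n.Prime ∧ W < n ∧ n % 8 = 1 then Real.log n / n else 0) := by
    refine summable_of_sum_le
      (c := ∑' k : ℕ, (m : ℝ) * (((k : ℝ) + 1) * Real.log x * (1 / x) ^ k)) ?_ ?_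
    · intro n
      simp only
      split_ifs with h
      · have : (1 : ℝ) ≤ n := by exact_mod_cast h.1.one_le
        exact div_nonneg (Real.log_nonneg this) (by positivity)
      · exact le_rfl
    · intro u
      rw [← Finset.sum_filter]
      rw [← Finset.sum_fiberwise_of_maps_to (g := g)
        (t := (u.filter fun n => n.Prime ∧ W < n ∧ n % 8 = 1).image g)
        (fun n hn => Finset.mem_image_of_mem g hn)]
      refine le_trans (Finset.sum_le_sum fun k hk => ?_)
        (hmaj.sum_le_tsum _ (fun k _ => by positivity))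
      have hc := hfib k ((u.filter fun n => n.Prime ∧ W < n ∧ n % 8 = 1).filter fun n => g n = k)
        (fun q hq => by
          rw [Finset.mem_filter, Finset.mem_filter] at hq
          exact ⟨hq.1.2, hq.2⟩)
      refine le_trans (Finset.sum_le_card_nsmul _ _ (((k : ℝ) + 1) * Real.log x * (1 / x) ^ k) ?_) ?_
      · intro q hq
        rw [Finset.mem_filter, Finset.mem_filter] at hq
        have hqp : 0 < q := hq.1.2.1.pos
        have hq0 : (0 : ℝ) < q := by exact_mod_cast hqp
        have hq1 : (1 : ℝ) ≤ q := by exact_mod_cast hqp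
        obtain ⟨h1, h2⟩ := hb q hqp
        rw [hq.2] at h1 h2
        have h3 : Real.log q ≤ ((k : ℝ) + 1) * Real.log x := by
          have h4 := (Real.log_le_log_iff hq0 (pow_pos hx0 _)).2 h2.le
          rw [Real.log_pow] at h4
          push_cast at h4
          exact h4
        rw [one_div, inv_pow, ← div_eq_mul_inv]
        exact div_le_div₀ (by positivity) h3 (pow_pos hx0 _) h1
      · rw [nsmul_eq_mul]
        refine mul_le_mul_of_nonneg_right ?_ (by positivity)
        exact_mod_cast hc.le
  -- contradiction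
  have hu : IsUnit (1 : ZMod 8) := isUnit_one
  refine not_summable_residueClass_prime_div hu ?_
  rw [← summable_nat_add_iff (W + 1)]
  rw [← summable_nat_add_iff (W + 1)] at hsum
  refine hsum.congr fun n => ?_
  have hW : W < n + (W + 1) := by omega
  by_cases hp : (n + (W + 1)).Prime
  · by_cases h8 : (n + (W + 1)) % 8 = 1
    · rw [if_pos ⟨hp, hW, h8⟩, if_pos hp]
      congr 1
      rw [residueClass, Set.indicator_of_mem, vonMangoldt_apply_prime hp]
      show ((n + (W + 1) : ℕ) : ZMod 8) = 1
      have : ((n + (W + 1) : ℕ) : ZMod 8) = ((1 : ℕ) : ZMod 8) := by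
        rw [ZMod.natCast_eq_natCast_iff]
        show (n + (W + 1)) % 8 = 1 % 8
        rw [h8]
      rw [this, Nat.cast_one]
    · rw [if_neg (fun h => h8 h.2.2), if_pos hp, residueClass, Set.indicator_of_notMem, zero_div]
      intro h
      apply h8
      have h1 : ((n + (W + 1) : ℕ) : ZMod 8) = ((1 : ℕ) : ZMod 8) := by
        rw [Nat.cast_one]; exact h
      rw [ZMod.natCast_eq_natCast_iff] at h1
      exact h1
  · rw [if_neg (fun h => hp h.1), if_neg hp, zero_div]

end Pool.Agent.Run7.h216.MO
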